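import Mathlib
import Pool.Agent.Lib.MP_adc81a_nt.Defs
import Pool.Agent.Lib.MP_adc81a_nt.Cert

set_option autoImplicit false

namespace Pool.Agent.Results.MP_adc81a_nt.MultipleRoot

open Polynomial Pool.Agent.Lib.MP_adc81a_nt

/-- double root criterion -/
theorem sq_dvd_of_eval (p : ℤ[X]) (c : ℤ) (h0 : p.eval c = 0)
    (h1 : (derivative p).eval c = 0) : (X - C c) ^ 2 ∣ p := by
  obtain ⟨q, hq⟩ := dvd_iff_isRoot.mpr h0
  have h2 : q.eval c = 0 := by
    have h3 : (derivative p).eval c = q.eval c := by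
      rw [hq]
      simp [derivative_mul]
    rw [← h3]; exact h1
  obtain ⟨r, hr⟩ := dvd_iff_isRoot.mpr h2
  exact ⟨r, by rw [hq, hr]; ring⟩

/-- the polynomial kernel vector modulo `(X+1)^2` -/
noncomputable def kerVec (j : Fin 55) : ℤ[X] :=
  C (va.getD (j : ℕ) 0) + (X - C (-1)) * C (vb.getD (j : ℕ) 0)

theorem digit_bound {i j : ℕ} (hi : i < 55) (hj : j < 55) : i + j < 2 ^ 7 := by
  have : (2 : ℕ) ^ 7 = 128 := by norm_num
  omega

theorem mulVec_eval (i : Fin 55) :
    (((hankelMatrix 55).mulVec kerVec) i).eval (-1) = 0 := by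
  have hc := check1_true
  unfold check1 at hc
  rw [List.all_eq_true] at hc
  have h := hc (i : ℕ) (List.mem_range.mpr i.2)
  rw [decide_eq_true_eq, dotI_eq] at h
  have hl : va.length = 55 := by decide
  rw [hl, Finset.sum_range] at h
  rw [← h]
  simp only [Matrix.mulVec, dotProduct, eval_finsetSum]
  apply Finset.sum_congr rfl
  intro j _
  have hs := (sp_spec 7 ((i : ℕ) + (j : ℕ)) (digit_bound i.2 j.2)).1
  simp only [hankelMatrix, Matrix.of_apply, kerVec, eval_mul, eval_add, eval_C, eval_sub, eval_X,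
    hs]
  ring

theorem mulVec_deriv (i : Fin 55) :
    (derivative (((hankelMatrix 55).mulVec kerVec) i)).eval (-1) = 0 := by
  have hc := check2_true
  unfold check2 at hc
  rw [List.all_eq_true] at hc
  have h := hc (i : ℕ) (List.mem_range.mpr i.2)
  rw [decide_eq_true_eq, dotI_eq, dotI_eq] at h
  have hl : va.length = 55 := by decide
  have hl' : vb.length = 55 := by decide
  rw [hl, hl', Finset.sum_range, Finset.sum_range, ← Finset.sum_add_distrib] at h
  rw [← h]
  simp only [Matrix.mulVec, dotProduct, derivative_sum, eval_finsetSum]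
  apply Finset.sum_congr rfl
  intro j _
  have hs := (sp_spec 7 ((i : ℕ) + (j : ℕ)) (digit_bound i.2 j.2))
  simp only [hankelMatrix, Matrix.of_apply, kerVec, derivative_mul, derivative_add, derivative_sub,
    derivative_X, derivative_C, eval_mul, eval_add, eval_C, eval_sub, eval_X, eval_zero, eval_one,
    hs.1, hs.2]
  ring

theorem sq_dvd_mulVec (i : Fin 55) :
    (X - C (-1)) ^ 2 ∣ ((hankelMatrix 55).mulVec kerVec) i :=
  sq_dvd_of_eval _ _ (mulVec_eval i) (mulVec_deriv i)

theorem va_last : va.getD 54 0 = 1 := by decide +kernel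

theorem vb_last : vb.getD 54 0 = 0 := by decide +kernel

theorem kerVec_last : kerVec (54 : Fin 55) = 1 := by
  have h : ((54 : Fin 55) : ℕ) = 54 := rfl
  unfold kerVec
  rw [h, va_last, vb_last]
  simp

/-- If `d` divides all entries of `M x` and some entry of `x` is `1`, then `d ∣ det M`. -/
theorem dvd_det_of_mulVec {R : Type*} [CommRing R] {n : ℕ} (M : Matrix (Fin n) (Fin n) R)
    (x : Fin n → R) (k : Fin n) (hk : x k = 1) (d : R) (h : ∀ i, d ∣ (M.mulVec x) i) :
    d ∣ M.det := by
  have h1 : M.adjugate.mulVec (M.mulVec x) = M.det • x := by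
    rw [Matrix.mulVec_mulVec, Matrix.adjugate_mul, Matrix.smul_mulVec, Matrix.one_mulVec]
  have h2 := congrFun h1 k
  rw [Pi.smul_apply, hk, smul_eq_mul, mul_one] at h2
  rw [← h2]
  simp only [Matrix.mulVec, dotProduct] at h ⊢
  apply Finset.dvd_sum
  intro j _
  exact Dvd.dvd.mul_left (h j) _

theorem sq_dvd_det : ((X - C (-1)) ^ 2 : ℤ[X]) ∣ hankelDet 55 :=
  dvd_det_of_mulVec (hankelMatrix 55) kerVec 54 kerVec_last _ sq_dvd_mulVec

theorem det_ne_zero : hankelDet 55 ≠ 0 := by
  intro h0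
  have : Fact (Nat.Prime 5) := ⟨by norm_num⟩
  let φ : ℤ[X] →+* ZMod 5 := (Int.castRingHom (ZMod 5)).comp (evalRingHom (1 : ℤ))
  have hdet : ((hankelMatrix 55).map φ).det = 0 := by
    have := RingHom.map_det φ (hankelMatrix 55)
    rw [RingHom.mapMatrix_apply] at this
    rw [← this]
    change φ (hankelDet 55) = 0
    rw [h0, map_zero]
  let N : Matrix (Fin 55) (Fin 55) (ZMod 5) :=
    Matrix.of fun i j => (((ninv.getD (i : ℕ) []).getD (j : ℕ) 0 : ℕ) : ZMod 5)
  have hN : N * (hankelMatrix 55).map φ = 1 := by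
    ext i j
    have hc := check3_true
    unfold check3 at hc
    rw [List.all_eq_true] at hc
    have h := hc (i : ℕ) (List.mem_range.mpr i.2)
    rw [List.all_eq_true] at h
    have h' := h (j : ℕ) (List.mem_range.mpr j.2)
    have h'' := Nat.eq_of_beq_eq_true h'
    have hc4 := check4_true
    unfold check4 at hc4
    rw [List.all_eq_true] at hc4
    have hlen := Nat.eq_of_beq_eq_true (hc4 (i : ℕ) (List.mem_range.mpr i.2))
    rw [dotN_eq, hlen, Finset.sum_range] at h''
    have hcast := congrArg (fun m : ℕ => (m : ZMod 5)) h''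
    simp only [ZMod.natCast_mod, Nat.cast_sum, Nat.cast_mul] at hcast
    rw [Matrix.mul_apply]
    have hone : ((1 : Matrix (Fin 55) (Fin 55) (ZMod 5)) i j) =
        (((if Nat.beq (i : ℕ) (j : ℕ) then 1 else 0 : ℕ)) : ZMod 5) := by
      rw [Matrix.one_apply]
      by_cases hij : i = j
      · subst hij; simp
      · have : ¬ ((i : ℕ) = (j : ℕ)) := fun h => hij (Fin.ext h)
        simp [hij, this]
    rw [hone, ← hcast]
    apply Finset.sum_congr rfl
    intro k _
    have hs := s2_spec 7 ((j : ℕ) + (k : ℕ)) (digit_bound j.2 k.2)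
    simp only [N, φ, Matrix.of_apply, Matrix.map_apply, hankelMatrix, RingHom.comp_apply,
      coe_evalRingHom]
    rw [add_comm (k : ℕ) (j : ℕ), hs]
    simp
  have hd := congrArg Matrix.det hN
  rw [Matrix.det_mul, hdet, mul_zero, Matrix.det_one] at hd
  exact zero_ne_one (α := ZMod 5) hd

/-- **Answer to the question.** There is `n ≥ 2` (namely `n = 55`) for which `ℋ(n,t)` is a nonzero
polynomial having a multiple root `t₀` (namely `t₀ = -1`) which is neither `0` nor twice a root of
unity. -/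
theorem result :
    ∃ n : ℕ, 2 ≤ n ∧ hankelDet n ≠ 0 ∧ ∃ t₀ : ℂ, t₀ ≠ 0 ∧
      (∀ (ζ : ℂ) (m : ℕ), 1 ≤ m → ζ ^ m = 1 → t₀ ≠ 2 * ζ) ∧
      (X - C t₀) ^ 2 ∣ (hankelDet n).map (Int.castRingHom ℂ) := by
  refine ⟨55, by norm_num, det_ne_zero, -1, by norm_num, ?_, ?_⟩
  · intro ζ m hm hζ h
    have hn : ‖ζ‖ = 1 := by
      have h1 : ‖ζ‖ ^ m = 1 := by rw [← norm_pow, hζ, norm_one]
      exact (pow_eq_one_iff_of_nonneg (norm_nonneg _) (by omega)).mp h1
    have h2 := congrArg norm h
    rw [norm_neg, norm_one, norm_mul, hn] at h2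
    norm_num at h2
  · have h := Polynomial.map_dvd (Int.castRingHom ℂ) sq_dvd_det
    simpa using h

end Pool.Agent.Results.MP_adc81a_nt.MultipleRoot
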